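import Mathlib

set_option autoImplicit false

namespace Pool.Agent.Helper7.LimsupPeriodic

/-- The sequences `(f n)` for `n ≥ 1` allowed in the problem (`f 0` is irrelevant): measurable
functions on the real line, uniformly bounded, with `f n` of period `1 / n`. -/
def Admissible (f : ℕ → ℝ → ℝ) : Prop :=
  (∀ n : ℕ, 1 ≤ n → Measurable (f n)) ∧
  (∃ M : ℝ, ∀ n : ℕ, 1 ≤ n → ∀ x : ℝ, |f n x| ≤ M) ∧
  (∀ n : ℕ, 1 ≤ n → ∀ x : ℝ, f n (x + 1 / n) = f n x)

end Pool.Agent.Helper7.LimsupPeriodic
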