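import Mathlib
import Pool.Agent.Helper7.LimsupPeriodic.Defs

set_option autoImplicit false

open MeasureTheory Set Filter Function
open scoped Topology BigOperators

namespace Pool.Agent.Helper7.LimsupPeriodic

/-- The interval integral of an indicator function over `(a, b]`. -/
lemma vol_eq_integral {A : Set ℝ} (hA : MeasurableSet A) {a b : ℝ} (hab : a ≤ b) :
    (volume (A ∩ Ioc a b)).toReal = ∫ x in a..b, A.indicator (fun _ => (1:ℝ)) x := by
  rw [intervalIntegral.integral_of_le hab, integral_indicator hA, Measure.restrict_restrict hA]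
  simp [Measure.real]

lemma vol_ne_top (A : Set ℝ) (a b : ℝ) : volume (A ∩ Ioc a b) ≠ ⊤ :=
  ne_top_of_le_ne_top (by simp) (measure_mono (inter_subset_right) : _ ≤ volume (Ioc a b))

lemma indicator_periodic {A : Set ℝ} {T : ℝ} (hper : ∀ x, x + T ∈ A ↔ x ∈ A) :
    Function.Periodic (A.indicator (fun _ => (1:ℝ))) T := by
  intro x
  by_cases h : x ∈ A
  · rw [indicator_of_mem h, indicator_of_mem ((hper x).2 h)]
  · rw [indicator_of_notMem h, indicator_of_notMem (fun h' => h ((hper x).1 h'))]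

lemma per_one {G : Set ℝ} (hG : MeasurableSet G) (hper : ∀ x, x + 1 ∈ G ↔ x ∈ G) (a b : ℝ) :
    volume (G ∩ Ioc a (a+1)) = volume (G ∩ Ioc b (b+1)) := by
  rw [← ENNReal.toReal_eq_toReal_iff' (vol_ne_top _ _ _) (vol_ne_top _ _ _),
    vol_eq_integral hG (by linarith), vol_eq_integral hG (by linarith)]
  exact (indicator_periodic hper).intervalIntegral_add_eq a b

lemma indicator_integrable {A : Set ℝ} (hA : MeasurableSet A) (a b : ℝ) :
    IntervalIntegrable (A.indicator (fun _ => (1:ℝ))) volume a b := by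
  have h1 : IntervalIntegrable (fun _ => (1:ℝ)) volume a b := intervalIntegrable_const
  exact ⟨h1.1.indicator hA, h1.2.indicator hA⟩

lemma per_p {A : Set ℝ} (hA : MeasurableSet A) {p : ℕ} (hp : 16 ≤ p)
    (hper : ∀ x, x + 1 / (p:ℝ) ∈ A ↔ x ∈ A) (a b : ℝ) :
    volume (A ∩ Ioc a (a+1)) ≤ 16 * volume (A ∩ Ioc b (b+1/8)) := by
  have hp0 : (0:ℝ) < p := by exact_mod_cast (by omega : 0 < p)
  rw [← ENNReal.toReal_le_toReal (vol_ne_top _ _ _)
    (ENNReal.mul_ne_top (by simp) (vol_ne_top _ _ _)), ENNReal.toReal_mul]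
  have hg := indicator_periodic hper
  set m : ℕ := p / 8 with hm
  have hm16 : (p:ℝ) ≤ 16 * m := by
    exact_mod_cast (by omega : p ≤ 16 * m)
  have hm8 : (8:ℝ) * m ≤ p := by
    exact_mod_cast (by omega : 8 * m ≤ p)
  have h1 : (volume (A ∩ Ioc a (a+1))).toReal
      = p * ∫ x in (0:ℝ)..(0 + 1 / (p:ℝ)), A.indicator (fun _ => (1:ℝ)) x := by
    rw [vol_eq_integral hA (by linarith)]
    have := hg.intervalIntegral_add_zsmul_eq p a (indicator_integrable hA)
    rw [hg.intervalIntegral_add_eq a 0] at this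
    have e : a + (p:ℤ) • (1 / (p:ℝ)) = a + 1 := by
      simp only [zsmul_eq_mul, Int.cast_natCast]; field_simp
    rw [e] at this
    rw [this]; simp
  have h2 : m * ∫ x in (0:ℝ)..(0 + 1 / (p:ℝ)), A.indicator (fun _ => (1:ℝ)) x
      ≤ (volume (A ∩ Ioc b (b+1/8))).toReal := by
    have := hg.intervalIntegral_add_zsmul_eq m b (indicator_integrable hA)
    rw [hg.intervalIntegral_add_eq b 0] at this
    have e : b + (m:ℤ) • (1 / (p:ℝ)) = b + m / p := by
      simp only [zsmul_eq_mul, Int.cast_natCast]; ring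
    rw [e] at this
    have e2 : m * ∫ x in (0:ℝ)..(0 + 1 / (p:ℝ)), A.indicator (fun _ => (1:ℝ)) x
        = ∫ x in b..(b + m / p), A.indicator (fun _ => (1:ℝ)) x := by
      rw [this]; simp
    rw [e2, ← vol_eq_integral hA (by
      have : (0:ℝ) ≤ m / p := by positivity
      linarith)]
    apply ENNReal.toReal_mono (vol_ne_top _ _ _)
    apply measure_mono
    apply inter_subset_inter_right
    apply Ioc_subset_Ioc_right
    have : (m:ℝ) / p ≤ 1 / 8 := by
      rw [div_le_div_iff₀ hp0 (by norm_num)]; linarith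
    linarith
  have h0 : 0 ≤ ∫ x in (0:ℝ)..(0 + 1 / (p:ℝ)), A.indicator (fun _ => (1:ℝ)) x := by
    apply intervalIntegral.integral_nonneg (by positivity)
    intro x _
    exact indicator_nonneg (fun _ _ => zero_le_one) x
  rw [h1]
  have e3 : (16:ENNReal).toReal = 16 := by simp
  rw [e3]
  nlinarith


/-- `U` is a finite union of measurable sets `A n`, `n > n0`, with `A n` invariant under
translation by `1/n`. -/
def Blk (n0 : ℕ) (U : Set ℝ) : Prop :=
  ∃ (S : Finset ℕ) (A : ℕ → Set ℝ), (∀ n ∈ S, n0 < n) ∧ (∀ n, MeasurableSet (A n)) ∧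
    (∀ n, ∀ x, x + 1 / (n:ℝ) ∈ A n ↔ x ∈ A n) ∧ U = ⋃ n ∈ S, A n

lemma Blk.empty (n0 : ℕ) : Blk n0 ∅ :=
  ⟨∅, fun _ => ∅, by simp, by simp, by simp, by simp⟩

lemma Blk.measurable {n0 : ℕ} {U : Set ℝ} (h : Blk n0 U) : MeasurableSet U := by
  obtain ⟨S, A, -, hA, -, rfl⟩ := h
  exact Finset.measurableSet_biUnion S (fun n _ => hA n)

lemma Blk.single {n0 n : ℕ} (hn : n0 < n) {B : Set ℝ} (hB : MeasurableSet B)
    (hper : ∀ x, x + 1 / (n:ℝ) ∈ B ↔ x ∈ B) : Blk n0 B := by
  refine ⟨{n}, fun m => if m = n then B else ∅, by simpa using hn, ?_, ?_, by simp⟩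
  · intro m; by_cases h : m = n <;> simp [h, hB]
  · intro m x
    by_cases h : m = n
    · subst h; simpa using hper x
    · simp [h]

lemma Blk.union {n0 : ℕ} {U V : Set ℝ} (hU : Blk n0 U) (hV : Blk n0 V) : Blk n0 (U ∪ V) := by
  obtain ⟨S, A, hS, hA, hAp, rfl⟩ := hU
  obtain ⟨T, B, hT, hB, hBp, rfl⟩ := hV
  refine ⟨S ∪ T, fun n => (if n ∈ S then A n else ∅) ∪ (if n ∈ T then B n else ∅), ?_, ?_, ?_, ?_⟩
  · intro n hn
    rcases Finset.mem_union.1 hn with h | h
    · exact hS n h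
    · exact hT n h
  · intro n
    apply MeasurableSet.union
    · split_ifs
      · exact hA n
      · exact MeasurableSet.empty
    · split_ifs
      · exact hB n
      · exact MeasurableSet.empty
  · intro n x
    simp only [mem_union]
    apply or_congr
    · split_ifs
      · exact hAp n x
      · simp
    · split_ifs
      · exact hBp n x
      · simp
  · ext x
    simp only [mem_union, mem_iUnion, Finset.mem_union, exists_prop]
    constructor
    · rintro (⟨n, hn, hx⟩ | ⟨n, hn, hx⟩)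
      · exact ⟨n, Or.inl hn, Or.inl (by simpa [hn] using hx)⟩
      · exact ⟨n, Or.inr hn, Or.inr (by simpa [hn] using hx)⟩
    · rintro ⟨n, -, hx | hx⟩
      · by_cases hn : n ∈ S
        · exact Or.inl ⟨n, hn, by simpa [hn] using hx⟩
        · simp [hn] at hx
      · by_cases hn : n ∈ T
        · exact Or.inr ⟨n, hn, by simpa [hn] using hx⟩
        · simp [hn] at hx

lemma Blk.iUnion {n0 k : ℕ} (A : Fin k → Set ℝ) (h : ∀ i, Blk n0 (A i)) : Blk n0 (⋃ i, A i) := by
  have key : ∀ s : Finset (Fin k), Blk n0 (⋃ i ∈ s, A i) := by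
    intro s
    induction s using Finset.induction_on with
    | empty => simpa using Blk.empty n0
    | insert a s _ ih =>
      rw [Finset.set_biUnion_insert]
      exact (h a).union ih
  simpa using key Finset.univ

lemma Blk.translate {n0 : ℕ} {U : Set ℝ} (hU : Blk n0 U) (θ : ℝ) :
    Blk n0 {x | x + θ ∈ U} := by
  obtain ⟨S, A, hS, hA, hAp, rfl⟩ := hU
  refine ⟨S, fun n => {x | x + θ ∈ A n}, hS, ?_, ?_, ?_⟩
  · intro n
    exact (measurable_add_const θ) (hA n)
  · intro n x
    simp only [mem_ofPred_eq]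
    rw [show x + 1 / (n:ℝ) + θ = (x + θ) + 1 / (n:ℝ) by ring]
    exact hAp n _
  · ext x; simp

lemma vol_translate (U : Set ℝ) (a b c : ℝ) :
    volume ({x | x + a ∈ U} ∩ Ioc b c) = volume (U ∩ Ioc (b + a) (c + a)) := by
  have : {x | x + a ∈ U} ∩ Ioc b c = (fun x => x + a) ⁻¹' (U ∩ Ioc (b + a) (c + a)) := by
    ext x; simp
  rw [this, measure_preimage_add_right]

section Block

variable {k : ℕ} (p : Fin k → ℕ) (c : Fin k → ℤ)

/-- all coordinates in the lower half -/
def GG : Set ℝ := {x | ∀ j, Int.fract ((c j : ℝ) * x) < 1 / 2}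

/-- all coordinates except the `i`-th in the lower half, and the sum of the other coordinates in
`[r/8, (r+1)/8)` modulo one -/
def AA (r : ℕ) (i : Fin k) : Set ℝ :=
  {x | (∀ j, j ≠ i → Int.fract ((c j : ℝ) * x) < 1 / 2) ∧
    (r:ℝ) / 8 ≤ Int.fract ((1 - c i : ℝ) * x) ∧ Int.fract ((1 - c i : ℝ) * x) < ((r:ℝ) + 1) / 8}

lemma measurable_fract_mul (a : ℝ) : Measurable (fun x : ℝ => Int.fract (a * x)) :=
  measurable_fract.comp (measurable_const_mul a)

lemma GG_meas : MeasurableSet (GG c) := by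
  unfold GG
  rw [ofPred_forall]
  exact MeasurableSet.iInter (fun j => measurableSet_lt (measurable_fract_mul _) measurable_const)

lemma AA_meas (r : ℕ) (i : Fin k) : MeasurableSet (AA c r i) := by
  unfold AA
  refine MeasurableSet.inter ?_ (MeasurableSet.inter ?_ ?_)
  · show MeasurableSet {x : ℝ | ∀ j, j ≠ i → Int.fract ((c j : ℝ) * x) < 1 / 2}
    simp only [ofPred_forall]
    exact MeasurableSet.iInter (fun j => MeasurableSet.iInter (fun _ =>
      measurableSet_lt (measurable_fract_mul _) measurable_const))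
  · exact measurableSet_le measurable_const (measurable_fract_mul _)
  · exact measurableSet_lt (measurable_fract_mul _) measurable_const

lemma GG_per (x : ℝ) : x + 1 ∈ GG c ↔ x ∈ GG c := by
  simp only [GG, mem_ofPred_eq]
  refine forall_congr' (fun j => ?_)
  rw [mul_add, mul_one, Int.fract_add_intCast]

variable {p c}

lemma dvd_one_sub (hc : ∑ i, c i = 1) (hdiv : ∀ i l, l ≠ i → (p l : ℤ) ∣ c i) (i : Fin k) :
    (p i : ℤ) ∣ 1 - c i := by
  rw [← hc, ← Finset.sum_erase_add Finset.univ _ (Finset.mem_univ i), add_sub_cancel_right]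
  exact Finset.dvd_sum (fun l hl => hdiv l i (Finset.ne_of_mem_erase hl).symm)

lemma AA_per (hp : ∀ i, 16 ≤ p i) (hc : ∑ i, c i = 1)
    (hdiv : ∀ i l, l ≠ i → (p l : ℤ) ∣ c i) (r : ℕ) (i : Fin k) (x : ℝ) :
    x + 1 / (p i : ℝ) ∈ AA c r i ↔ x ∈ AA c r i := by
  have hp0 : ((p i : ℕ) : ℝ) ≠ 0 := by
    have := hp i
    exact_mod_cast (by omega : p i ≠ 0)
  simp only [AA, mem_ofPred_eq]
  have h1 : Int.fract ((1 - c i : ℝ) * (x + 1 / (p i : ℝ))) = Int.fract ((1 - c i : ℝ) * x) := by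
    obtain ⟨m, hm⟩ := dvd_one_sub hc hdiv i
    have hm' : (1 - c i : ℝ) = p i * m := by exact_mod_cast hm
    have : (1 - c i : ℝ) * (x + 1 / (p i : ℝ)) = (1 - c i : ℝ) * x + m := by
      rw [mul_add, hm']; field_simp
    rw [this, Int.fract_add_intCast]
  rw [h1]
  refine and_congr_left (fun _ => forall_congr' (fun j => forall_congr' (fun hj => ?_)))
  obtain ⟨m, hm⟩ := hdiv j i (Ne.symm hj)
  have hm' : (c j : ℝ) = p i * m := by exact_mod_cast hm
  have : (c j : ℝ) * (x + 1 / (p i : ℝ)) = (c j : ℝ) * x + m := by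
    rw [mul_add, hm']; field_simp
  rw [this, Int.fract_add_intCast]

lemma GG_pos (hp : ∀ i, 16 ≤ p i) (hc : ∑ i, c i = 1)
    (hdiv : ∀ i l, l ≠ i → (p l : ℤ) ∣ c i) (a : ℝ) : volume (GG c ∩ Ioc a (a + 1)) ≠ 0 := by
  classical
  set x0 : ℝ := ∑ i, 1 / (p i : ℝ) with hx0
  have hp0 : ∀ i, ((p i : ℕ) : ℝ) ≠ 0 := by
    intro i
    have := hp i
    exact_mod_cast (by omega : p i ≠ 0)
  have hm : ∀ j, ∃ m : ℤ, (c j : ℝ) * x0 = m + 1 / (p j : ℝ) := by
    intro j
    have h1 : ∀ i, ∃ q : ℤ, (c j : ℝ) * (1 / (p i : ℝ)) = q + (if i = j then 1 / (p j : ℝ) else 0) := by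
      intro i
      by_cases hij : i = j
      · subst hij
        obtain ⟨q, hq⟩ := dvd_one_sub hc hdiv i
        refine ⟨-q, ?_⟩
        have hq' : (1 - c i : ℝ) = p i * q := by exact_mod_cast hq
        have hq'' : (c i : ℝ) = 1 - p i * q := by linarith
        rw [if_pos rfl, hq'']
        have := hp0 i
        push_cast
        field_simp
        ring
      · obtain ⟨q, hq⟩ := hdiv j i hij
        refine ⟨q, ?_⟩
        have hq' : (c j : ℝ) = p i * q := by exact_mod_cast hq
        rw [if_neg hij, hq']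
        have := hp0 i
        field_simp
        ring
    choose q hq using h1
    refine ⟨∑ i, q i, ?_⟩
    rw [hx0, Finset.mul_sum, Finset.sum_congr rfl (fun i _ => hq i), Finset.sum_add_distrib]
    simp
  choose m hm using hm
  rw [per_one (GG_meas c) (GG_per c) a (x0 - 1/2)]
  set O : Set ℝ := {x | ∀ j, (m j : ℝ) < (c j : ℝ) * x ∧ (c j : ℝ) * x < m j + 1 / 2} with hO
  have hOo : IsOpen O := by
    rw [hO, ofPred_forall]
    refine isOpen_iInter_of_finite (fun j => ?_)
    exact (isOpen_lt continuous_const (continuous_const.mul continuous_id)).inter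
      (isOpen_lt (continuous_const.mul continuous_id) continuous_const)
  have hOG : O ⊆ GG c := by
    intro x hx j
    have h := hx j
    have hf : Int.fract ((c j : ℝ) * x) = (c j : ℝ) * x - m j := by
      rw [Int.fract_eq_iff]
      exact ⟨by linarith [h.1], by linarith [h.2], ⟨m j, by ring⟩⟩
    rw [hf]; linarith [h.2]
  have hx0O : x0 ∈ O := by
    intro j
    have h16 : (16:ℝ) ≤ p j := by exact_mod_cast hp j
    have h2 : (0:ℝ) < 1 / (p j : ℝ) := by positivity
    have h3 : 1 / (p j : ℝ) < 1 / 2 := by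
      apply one_div_lt_one_div_of_lt <;> linarith
    rw [hm j]
    exact ⟨by linarith, by linarith⟩
  have hO' : IsOpen (O ∩ Ioo (x0 - 1/2) (x0 - 1/2 + 1)) := hOo.inter isOpen_Ioo
  have hne : (O ∩ Ioo (x0 - 1/2) (x0 - 1/2 + 1)).Nonempty :=
    ⟨x0, hx0O, by constructor <;> linarith⟩
  intro h0
  have : volume (O ∩ Ioo (x0 - 1/2) (x0 - 1/2 + 1)) = 0 :=
    measure_mono_null (inter_subset_inter hOG Ioo_subset_Ioc_self) h0
  exact (hO'.measure_pos volume hne).ne' this

/-- key identity: on `AA c r i`, `c i * x = x - t` modulo one where `t ∈ [r/8,(r+1)/8)` -/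
lemma AA_key {r : ℕ} {i : Fin k} {x : ℝ} (hx : x ∈ AA c r i) :
    ∃ t : ℝ, (r:ℝ) / 8 ≤ t ∧ t < ((r:ℝ) + 1) / 8 ∧
      Int.fract ((c i : ℝ) * x) = Int.fract (x - t) := by
  refine ⟨Int.fract ((1 - c i : ℝ) * x), hx.2.1, hx.2.2, ?_⟩
  have : (c i : ℝ) * x = (x - Int.fract ((1 - c i : ℝ) * x)) - ⌊(1 - c i : ℝ) * x⌋ := by
    have := Int.self_sub_floor ((1 - c i : ℝ) * x)
    linarith
  conv_lhs => rw [this]
  rw [Int.fract_sub_intCast]

lemma AA_bad {r : ℕ} {i : Fin k} {x : ℝ} (hx : x ∈ AA c r i)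
    (hw : x ∈ Ioc ((r:ℝ) / 8 + 1 / 8) ((r:ℝ) / 8 + 3 / 8)) : x ∈ GG c := by
  obtain ⟨t, ht1, ht2, ht⟩ := AA_key hx
  intro j
  by_cases hj : j = i
  · subst hj
    rw [ht]
    have h1 : 0 ≤ x - t := by linarith [hw.1]
    have h2 : x - t < 1 / 2 := by linarith [hw.2]
    rw [Int.fract_eq_self.2 ⟨h1, by linarith⟩]
    exact h2
  · exact hx.1 j hj

lemma AA_good {r : ℕ} {i j : Fin k} (hij : i ≠ j) {x : ℝ} (hx : x ∈ AA c r i)
    (hw : x ∈ Ioc ((r:ℝ) / 8 + 5 / 8) ((r:ℝ) / 8 + 5 / 8 + 1 / 8)) : x ∉ AA c r j := by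
  obtain ⟨t, ht1, ht2, ht⟩ := AA_key hx
  intro hxj
  have h := hxj.1 i hij
  rw [ht] at h
  have h1 : 1 / 2 < x - t := by linarith [hw.1]
  have h2 : x - t < 1 := by linarith [hw.2]
  rw [Int.fract_eq_self.2 ⟨by linarith, by linarith⟩] at h
  linarith

lemma GG_cover (i : Fin k) : GG c ⊆ ⋃ r : Fin 8, AA c r i := by
  intro x hx
  set y := Int.fract ((1 - c i : ℝ) * x) with hy
  have hy0 : 0 ≤ y := Int.fract_nonneg _
  have hy1 : y < 1 := Int.fract_lt_one _
  have h8 : 0 ≤ 8 * y := by linarith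
  have hr : ⌊8 * y⌋₊ < 8 := by
    rw [Nat.floor_lt h8]; push_cast; linarith
  rw [mem_iUnion]
  refine ⟨⟨⌊8 * y⌋₊, hr⟩, fun j _ => hx j, ?_, ?_⟩
  · have := Nat.floor_le h8
    simp only; rw [← hy]; linarith
  · have := Nat.lt_floor_add_one (8 * y)
    simp only; rw [← hy]; linarith

lemma block_aux (hk : 1 ≤ k) (hp : ∀ i, 16 ≤ p i) (hc : ∑ i, c i = 1)
    (hdiv : ∀ i l, l ≠ i → (p l : ℤ) ∣ c i) {n0 : ℕ} (hn0 : ∀ i, n0 < p i) :
    ∃ U, Blk n0 U ∧ volume (U ∩ Ioc 0 (1/8)) ≠ 0 ∧
      k * volume (U ∩ Ioc (-1/2) (-1/4)) ≤ 128 * volume (U ∩ Ioc 0 (1/8)) := by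
  classical
  set g := volume (GG c ∩ Ioc 0 1) with hg
  have hg0 : g ≠ 0 := by
    have := GG_pos hp hc hdiv 0
    simpa [hg] using this
  -- choose the best `r`
  set X : Fin 8 → ENNReal := fun r => ∑ i, volume (AA c r i ∩ Ioc 0 1) with hX
  obtain ⟨r, -, hr⟩ := Finset.exists_max_image (Finset.univ : Finset (Fin 8)) X
    ⟨0, Finset.mem_univ _⟩
  have h1 : k * g ≤ 8 * X r := by
    calc k * g = ∑ i : Fin k, g := by simp
    _ ≤ ∑ i : Fin k, ∑ r : Fin 8, volume (AA c r i ∩ Ioc 0 1) := by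
        apply Finset.sum_le_sum
        intro i _
        have hsub : GG c ∩ Ioc 0 1 ⊆ ⋃ r : Fin 8, (AA c r i ∩ Ioc (0:ℝ) 1) := by
          rw [← iUnion_inter]
          exact inter_subset_inter_left _ (GG_cover i)
        exact (measure_mono hsub).trans (measure_iUnion_fintype_le _ _)
    _ = ∑ r : Fin 8, X r := by rw [Finset.sum_comm]
    _ ≤ ∑ _r : Fin 8, X r := Finset.sum_le_sum (fun s hs => hr s hs)
    _ = 8 * X r := by simp
  set a : ℝ := (r:ℝ) / 8 + 5 / 8 with ha
  set U : Set ℝ := ⋃ i, AA c r i with hU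
  have hgood : X r ≤ 16 * volume (U ∩ Ioc a (a + 1/8)) := by
    have e : volume (U ∩ Ioc a (a + 1/8)) = ∑ i, volume (AA c r i ∩ Ioc a (a + 1/8)) := by
      rw [hU, iUnion_inter, measure_iUnion, tsum_fintype]
      · intro i j hij
        rw [Function.onFun, disjoint_left]
        rintro x ⟨hx, hw⟩ ⟨hx', -⟩
        exact AA_good hij hx hw hx'
      · intro i
        exact (AA_meas c r i).inter measurableSet_Ioc
    rw [e, Finset.mul_sum]
    apply Finset.sum_le_sum
    intro i _
    have := per_p (AA_meas c r i) (hp i) (AA_per hp hc hdiv r i) 0 a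
    simpa using this
  have hbad : volume (U ∩ Ioc ((r:ℝ) / 8 + 1 / 8) ((r:ℝ) / 8 + 3 / 8)) ≤ g := by
    have e : g = volume (GG c ∩ Ioc ((r:ℝ) / 8 + 1 / 8) ((r:ℝ) / 8 + 1 / 8 + 1)) := by
      rw [per_one (GG_meas c) (GG_per c) ((r:ℝ) / 8 + 1 / 8) 0, hg, zero_add]
    rw [e]
    apply measure_mono
    rintro x ⟨hx, hw⟩
    rw [hU, mem_iUnion] at hx
    obtain ⟨i, hi⟩ := hx
    exact ⟨AA_bad hi hw, hw.1, by linarith [hw.2]⟩
  have hblk : Blk n0 U := Blk.iUnion _ (fun i =>
    Blk.single (hn0 i) (AA_meas c r i) (AA_per hp hc hdiv r i))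
  refine ⟨{x | x + a ∈ U}, hblk.translate a, ?_, ?_⟩
  · rw [vol_translate, zero_add, add_comm (1/8) a]
    intro h0
    rw [h0, mul_zero, nonpos_iff_eq_zero] at hgood
    rw [hgood, mul_zero, nonpos_iff_eq_zero, mul_eq_zero] at h1
    rcases h1 with h1 | h1
    · rw [Nat.cast_eq_zero] at h1; omega
    · exact hg0 h1
  · rw [vol_translate, vol_translate, zero_add, add_comm (1/8) a]
    have e1 : (-1/2 : ℝ) + a = (r:ℝ) / 8 + 1 / 8 := by rw [ha]; ring
    have e2 : (-1/4 : ℝ) + a = (r:ℝ) / 8 + 3 / 8 := by rw [ha]; ring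
    rw [e1, e2]
    calc (k : ENNReal) * volume (U ∩ Ioc ((r:ℝ) / 8 + 1 / 8) ((r:ℝ) / 8 + 3 / 8)) ≤ k * g := by
          gcongr
    _ ≤ 8 * X r := h1
    _ ≤ 8 * (16 * volume (U ∩ Ioc a (a + 1/8))) := by gcongr
    _ = 128 * volume (U ∩ Ioc a (a + 1/8)) := by rw [← mul_assoc]; norm_num

end Block

lemma block (k : ℕ) (hk : 1 ≤ k) (n0 : ℕ) :
    ∃ U, Blk n0 U ∧ volume (U ∩ Ioc 0 (1/8)) ≠ 0 ∧
      k * volume (U ∩ Ioc (-1/2) (-1/4)) ≤ 128 * volume (U ∩ Ioc 0 (1/8)) := by
  classical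
  have : Nonempty (Fin k) := ⟨⟨0, hk⟩⟩
  set p : Fin k → ℕ := fun i => Nat.nth Nat.Prime (n0 + 17 + i) with hp
  have hmono := Nat.nth_strictMono Nat.infinite_setOfPred_prime
  have hge : ∀ i : Fin k, n0 + 17 + (i:ℕ) ≤ p i := fun i => hmono.le_apply
  have hprime : ∀ i, (p i).Prime := fun i => Nat.prime_nth_prime _
  have hinj : Function.Injective p := by
    intro i j hij
    have := hmono.injective hij
    exact Fin.ext (by omega)
  have hcop : Pairwise (IsCoprime on fun i : Fin k => (p i : ℤ)) := by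
    intro i j hij
    rw [Function.onFun, Nat.isCoprime_iff_coprime]
    exact (Nat.coprime_primes (hprime i) (hprime j)).2 (fun h => hij (hinj h))
  obtain ⟨μ, hμ⟩ := (exists_sum_eq_one_iff_pairwise_coprime' (R := ℤ)).2 hcop
  refine block_aux (p := p) (c := fun i => μ i * ∏ j ∈ {i}ᶜ, (p j : ℤ)) hk ?_ hμ ?_ ?_
  · intro i; have := hge i; omega
  · intro i l hl
    apply Dvd.dvd.mul_left
    exact Finset.dvd_prod_of_mem _ (by simpa using hl)
  · intro i; have := hge i; omega

/-- averaging over translations -/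
lemma shift {U B : Set ℝ} (hU : MeasurableSet U) (hB : MeasurableSet B)
    (hBs : B ⊆ Ioc (0:ℝ) (1/16)) :
    ∃ θ ∈ Ioc (-1/16 : ℝ) (1/8),
      volume (U ∩ Ioc 0 (1/8)) * volume B ≤ volume ({x | x + θ ∈ U} ∩ B) := by
  set α := volume (U ∩ Ioc 0 (1/8)) with hα
  by_contra! hcon
  have hF : Measurable (fun z : ℝ × ℝ => U.indicator (1 : ℝ → ENNReal) (z.2 + z.1)) :=
    (measurable_one.indicator hU).comp (measurable_snd.add measurable_fst)
  have hswap := lintegral_lintegral_swap (μ := volume.restrict (Ioc (-1/16 : ℝ) (1/8)))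
    (ν := volume.restrict B) (f := fun θ x => U.indicator (1 : ℝ → ENNReal) (x + θ)) hF.aemeasurable
  have hleft : ∀ θ, ∫⁻ x in B, U.indicator (1 : ℝ → ENNReal) (x + θ)
      = volume ({x | x + θ ∈ U} ∩ B) := by
    intro θ
    have hm : MeasurableSet {x | x + θ ∈ U} := (measurable_add_const θ) hU
    have : (fun x => U.indicator (1 : ℝ → ENNReal) (x + θ))
        = ({x | x + θ ∈ U} : Set ℝ).indicator 1 := by
      ext x
      simp [indicator]
    rw [this, lintegral_indicator_one hm, Measure.restrict_apply hm]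
  have hright : ∀ x ∈ B, α ≤ ∫⁻ θ in Ioc (-1/16 : ℝ) (1/8), U.indicator (1 : ℝ → ENNReal) (x + θ) := by
    intro x hx
    have hm : MeasurableSet {θ | x + θ ∈ U} := (measurable_const_add x) hU
    have : (fun θ => U.indicator (1 : ℝ → ENNReal) (x + θ))
        = ({θ | x + θ ∈ U} : Set ℝ).indicator 1 := by
      ext θ
      simp [indicator]
    rw [this, lintegral_indicator_one hm, Measure.restrict_apply hm]
    have e : {θ | x + θ ∈ U} = {θ | θ + x ∈ U} := by
      ext θ; simp [add_comm]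
    rw [e, vol_translate]
    apply measure_mono
    apply inter_subset_inter_right
    have := hBs hx
    apply Ioc_subset_Ioc <;> linarith [this.1, this.2]
  have h1 : α * volume B ≤ ∫⁻ θ in Ioc (-1/16 : ℝ) (1/8), volume ({x | x + θ ∈ U} ∩ B) := by
    calc α * volume B = ∫⁻ _x in B, α := by rw [setLIntegral_const]
    _ ≤ ∫⁻ x in B, ∫⁻ θ in Ioc (-1/16 : ℝ) (1/8), U.indicator (1 : ℝ → ENNReal) (x + θ) :=
        setLIntegral_mono' hB hright
    _ = ∫⁻ θ in Ioc (-1/16 : ℝ) (1/8), ∫⁻ x in B, U.indicator (1 : ℝ → ENNReal) (x + θ) := hswap.symm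
    _ = _ := by simp_rw [hleft]
  have h2 : ∫⁻ θ in Ioc (-1/16 : ℝ) (1/8), volume ({x | x + θ ∈ U} ∩ B)
      ≤ α * volume B * ENNReal.ofReal (3/16) := by
    calc ∫⁻ θ in Ioc (-1/16 : ℝ) (1/8), volume ({x | x + θ ∈ U} ∩ B)
        ≤ ∫⁻ _θ in Ioc (-1/16 : ℝ) (1/8), α * volume B :=
          setLIntegral_mono' measurableSet_Ioc (fun θ hθ => (hcon θ hθ).le)
    _ = _ := by
          rw [setLIntegral_const, Real.volume_Ioc]; norm_num
  have h3 : α * volume B < ⊤ := by
    apply ENNReal.mul_lt_top (vol_ne_top _ _ _).lt_top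
    exact (measure_mono hBs).trans_lt (by simp)
  have h4 : α * volume B ≠ 0 := by
    have := hcon (1/8) (by constructor <;> norm_num)
    exact (pos_of_gt this).ne'
  have h5 : α * volume B * ENNReal.ofReal (3/16) < α * volume B := by
    conv_rhs => rw [← mul_one (α * volume B)]
    rw [ENNReal.mul_lt_mul_iff_right h4 h3.ne]
    rw [← ENNReal.ofReal_one]
    exact (ENNReal.ofReal_lt_ofReal_iff one_pos).2 (by norm_num)
  exact absurd (h1.trans h2) (not_le.2 h5)

lemma cover (ε : ℝ) (hε : 0 < ε) (n0 : ℕ) :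
    ∃ V, Blk n0 V ∧ 1/32 ≤ (volume (V ∩ Ioc 0 (1/16))).toReal ∧
      (volume (V ∩ Ioc (-7/16) (-6/16))).toReal ≤ ε := by
  obtain ⟨k, hk⟩ := exists_nat_gt (256 / ε)
  have hk0 : (0:ℝ) < k := lt_trans (by positivity) hk
  have hk1 : 1 ≤ k := by exact_mod_cast hk0
  obtain ⟨U, hU, hα0, hβ⟩ := block k hk1 n0
  set α : ℝ := (volume (U ∩ Ioc 0 (1/8))).toReal with hα
  set β : ℝ := (volume (U ∩ Ioc (-1/2) (-1/4))).toReal with hβd
  have hαpos : 0 < α := ENNReal.toReal_pos hα0 (vol_ne_top _ _ _)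
  have hα1 : α ≤ 1 := by
    have : volume (U ∩ Ioc 0 (1/8)) ≤ ENNReal.ofReal (1/8) := by
      refine (measure_mono inter_subset_right).trans ?_
      rw [Real.volume_Ioc]; norm_num
    have := ENNReal.toReal_mono (by simp) this
    rw [ENNReal.toReal_ofReal (by norm_num)] at this
    linarith
  have hβ0 : 0 ≤ β := ENNReal.toReal_nonneg
  have hβα : k * β ≤ 128 * α := by
    have := ENNReal.toReal_mono (ENNReal.mul_ne_top (by simp) (vol_ne_top _ _ _)) hβ
    rw [ENNReal.toReal_mul, ENNReal.toReal_mul, ENNReal.toReal_natCast] at this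
    have e : (128:ENNReal).toReal = 128 := by simp
    rw [e] at this
    exact this
  have key : ∀ R : ℕ, ∃ V, Blk n0 V ∧
      (volume (Ioc (0:ℝ) (1/16) \ V)).toReal ≤ (1 - α) ^ R * (1/16) ∧
      (volume (V ∩ Ioc (-7/16) (-6/16))).toReal ≤ R * β := by
    intro R
    induction R with
    | zero =>
      refine ⟨∅, Blk.empty n0, ?_, by simp⟩
      simp
    | succ R ih =>
      obtain ⟨V, hV, h1, h2⟩ := ih
      set B := Ioc (0:ℝ) (1/16) \ V with hB
      have hBm : MeasurableSet B := measurableSet_Ioc.diff hV.measurable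
      obtain ⟨θ, hθ, hθ'⟩ := shift hU.measurable hBm sdiff_subset
      set W : Set ℝ := {x | x + θ ∈ U} with hW
      have hWm : MeasurableSet W := (measurable_add_const θ) hU.measurable
      have hBfin : volume B ≠ ⊤ :=
        ne_top_of_le_ne_top (by simp) (measure_mono sdiff_subset : _ ≤ volume (Ioc (0:ℝ) (1/16)))
      refine ⟨V ∪ W, hV.union (hU.translate θ), ?_, ?_⟩
      · have e : Ioc (0:ℝ) (1/16) \ (V ∪ W) = B \ W := by rw [hB, sdiff_sdiff]
        rw [e]
        have e2 : (volume (B \ W)).toReal + (volume (W ∩ B)).toReal = (volume B).toReal := by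
          rw [← ENNReal.toReal_add (ne_top_of_le_ne_top hBfin (measure_mono sdiff_subset))
            (ne_top_of_le_ne_top hBfin (measure_mono inter_subset_right)), inter_comm,
            measure_sdiff_add_inter B hWm]
        have e3 : α * (volume B).toReal ≤ (volume (W ∩ B)).toReal := by
          have := ENNReal.toReal_mono (ne_top_of_le_ne_top hBfin (measure_mono inter_subset_right)) hθ'
          rwa [ENNReal.toReal_mul] at this
        have e4 : (volume (B \ W)).toReal ≤ (1 - α) * (volume B).toReal := by linarith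
        calc (volume (B \ W)).toReal ≤ (1 - α) * (volume B).toReal := e4
        _ ≤ (1 - α) * ((1 - α) ^ R * (1/16)) := by
            apply mul_le_mul_of_nonneg_left h1; linarith
        _ = _ := by ring
      · have hWbad : (volume (W ∩ Ioc (-7/16) (-6/16))).toReal ≤ β := by
          apply ENNReal.toReal_mono (vol_ne_top _ _ _)
          rw [hW, vol_translate]
          apply measure_mono
          apply inter_subset_inter_right
          apply Ioc_subset_Ioc <;> linarith [hθ.1, hθ.2]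
        have : (volume ((V ∪ W) ∩ Ioc (-7/16) (-6/16))).toReal
            ≤ (volume (V ∩ Ioc (-7/16) (-6/16))).toReal
              + (volume (W ∩ Ioc (-7/16) (-6/16))).toReal := by
          rw [← ENNReal.toReal_add (vol_ne_top _ _ _) (vol_ne_top _ _ _)]
          apply ENNReal.toReal_mono
            (ENNReal.add_ne_top.2 ⟨vol_ne_top _ _ _, vol_ne_top _ _ _⟩)
          rw [union_inter_distrib_right]
          exact measure_union_le _ _
        push_cast
        linarith
  obtain ⟨V, hV, h1, h2⟩ := key ⌈1 / α⌉₊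
  refine ⟨V, hV, ?_, ?_⟩
  · have hR : 1 / α ≤ (⌈1 / α⌉₊ : ℝ) := Nat.le_ceil _
    have hpow : (1 - α) ^ ⌈1 / α⌉₊ ≤ 1 / 2 := by
      calc (1 - α) ^ ⌈1 / α⌉₊ ≤ (Real.exp (-α)) ^ ⌈1 / α⌉₊ := by
            apply pow_le_pow_left₀ (by linarith)
            exact Real.one_sub_le_exp_neg α
      _ = Real.exp (⌈1 / α⌉₊ * (-α)) := by rw [Real.exp_nat_mul]
      _ ≤ Real.exp (-1) := by
            apply Real.exp_le_exp.2
            have : 1 ≤ (⌈1 / α⌉₊ : ℝ) * α := by
              rw [div_le_iff₀ hαpos] at hR; exact hR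
            linarith
      _ ≤ 1 / 2 := by
            have := Real.exp_neg_one_lt_d9
            linarith
    have h3 : (volume (Ioc (0:ℝ) (1/16) \ V)).toReal ≤ 1/32 := by linarith
    have h4 : (volume (Ioc (0:ℝ) (1/16) \ V)).toReal + (volume (V ∩ Ioc 0 (1/16))).toReal
        = 1/16 := by
      rw [← ENNReal.toReal_add (ne_top_of_le_ne_top (by simp)
        (measure_mono sdiff_subset : _ ≤ volume (Ioc (0:ℝ) (1/16)))) (vol_ne_top _ _ _),
        inter_comm, measure_sdiff_add_inter _ hV.measurable, Real.volume_Ioc,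
        ENNReal.toReal_ofReal (by norm_num)]
      norm_num
    linarith
  · have hR : (⌈1 / α⌉₊ : ℝ) ≤ 1 / α + 1 := (Nat.ceil_lt_add_one (by positivity)).le
    have h3 : (1 / α + 1) * β ≤ 2 * (β / α) := by
      have : (1 / α + 1) * β = β / α + β := by field_simp
      rw [this]
      have : β ≤ β / α := by
        rw [le_div_iff₀ hαpos]; nlinarith
      linarith
    have h4 : β / α ≤ 128 / k := by
      rw [div_le_div_iff₀ hαpos hk0]; linarith
    have h5 : 256 / k ≤ ε := by
      rw [div_le_iff₀ hk0]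
      rw [div_lt_iff₀ hε] at hk
      linarith
    calc (volume (V ∩ Ioc (-7/16) (-6/16))).toReal ≤ ⌈1 / α⌉₊ * β := h2
    _ ≤ (1 / α + 1) * β := by gcongr
    _ ≤ 2 * (β / α) := h3
    _ ≤ 2 * (128 / k) := by gcongr
    _ = 256 / k := by ring
    _ ≤ ε := h5



lemma limsup_one {u : ℕ → ℝ} (hu : ∀ n, u n ≤ 1) (hu0 : ∀ n, 0 ≤ u n)
    (h : ∃ᶠ n in atTop, 1 ≤ u n) : limsup u atTop = 1 := by
  have hb : IsBoundedUnder (· ≤ ·) atTop u := isBoundedUnder_of ⟨1, hu⟩
  have hb' : IsBoundedUnder (· ≥ ·) atTop u := isBoundedUnder_of ⟨0, hu0⟩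
  apply le_antisymm
  · exact limsup_le_of_le hb'.isCoboundedUnder_flip (Eventually.of_forall hu)
  · exact le_limsup_of_frequently_le h hb

lemma liminf_neg_one {u : ℕ → ℝ} (hu : ∀ n, u n ≤ 1) (hu0 : ∀ n, 0 ≤ u n)
    (h : ∃ᶠ n in atTop, 1 ≤ u n) : liminf (fun n => - u n) atTop = -1 := by
  have hb : IsBoundedUnder (· ≥ ·) atTop (fun n => - u n) :=
    isBoundedUnder_of ⟨-1, fun n => neg_le_neg (hu n)⟩
  have hb' : IsBoundedUnder (· ≤ ·) atTop (fun n => - u n) :=
    isBoundedUnder_of ⟨0, fun n => by simpa using hu0 n⟩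
  apply le_antisymm
  · exact liminf_le_of_frequently_le (h.mono fun n hn => neg_le_neg hn) hb
  · exact le_liminf_of_le hb'.isCoboundedUnder_flip
      (Eventually.of_forall fun n => neg_le_neg (hu n))

/-- The main construction: sets `A n` with `A n` invariant under translation by `1/n`, such that
the limsup of the `A n` has positive measure but is null on a nontrivial interval. -/
lemma sets_exist : ∃ A : ℕ → Set ℝ, (∀ n, MeasurableSet (A n)) ∧
    (∀ n, ∀ x, x + 1 / (n:ℝ) ∈ A n ↔ x ∈ A n) ∧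
    (∃ E : Set ℝ, volume E ≠ 0 ∧ ∀ x ∈ E, ∃ᶠ n in atTop, x ∈ A n) ∧
    (∀ᵐ x : ℝ, x ∈ Ioc (-7/16 : ℝ) (-6/16) → ∀ᶠ n in atTop, x ∉ A n) := by
  classical
  choose V hV hV1 hV2 using fun q : ℕ => cover ((1/2)^q) (by positivity) q
  choose S A hS hAm hAp hVA using hV
  refine ⟨fun n => ⋃ q, if n ∈ S q then A q n else ∅, ?_, ?_, ?_, ?_⟩
  · intro n
    apply MeasurableSet.iUnion
    intro q
    split_ifs
    · exact hAm q n
    · exact MeasurableSet.empty
  · intro n x
    simp only [mem_iUnion]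
    refine exists_congr (fun q => ?_)
    split_ifs
    · exact hAp q n x
    · simp
  · set F : ℕ → Set ℝ := fun m => ⋃ q ∈ Ici m, V q ∩ Ioc 0 (1/16) with hF
    have hVm : ∀ q, MeasurableSet (V q) := by
      intro q
      rw [hVA q]
      exact Finset.measurableSet_biUnion _ (fun n _ => hAm q n)
    have hFm : ∀ m, MeasurableSet (F m) := by
      intro m
      exact MeasurableSet.biUnion (to_countable _) (fun q _ => (hVm q).inter measurableSet_Ioc)
    have hFa : Antitone F := by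
      intro m m' hmm'
      exact biUnion_subset_biUnion_left (Ici_subset_Ici.2 hmm')
    have hFle : ∀ m, volume (F m) ≤ volume (Ioc (0:ℝ) (1/16)) := by
      intro m
      apply measure_mono
      exact iUnion₂_subset (fun q _ => inter_subset_right)
    have hFfin : ∀ m, volume (F m) ≠ ⊤ := fun m => ne_top_of_le_ne_top (by simp) (hFle m)
    have hFge : ∀ m, ENNReal.ofReal (1/32) ≤ volume (F m) := by
      intro m
      have h1 : volume (V m ∩ Ioc 0 (1/16)) ≤ volume (F m) := by
        apply measure_mono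
        intro x hx
        simp only [hF, mem_iUnion]
        exact ⟨m, le_refl m, hx⟩
      refine le_trans ?_ h1
      rw [ENNReal.ofReal_le_iff_le_toReal (vol_ne_top _ _ _)]
      exact hV1 m
    refine ⟨⋂ m, F m, ?_, ?_⟩
    · have ht := tendsto_measure_iInter_atTop (μ := volume) (fun m => (hFm m).nullMeasurableSet)
        hFa ⟨0, hFfin 0⟩
      have : ENNReal.ofReal (1/32) ≤ volume (⋂ m, F m) :=
        ge_of_tendsto' ht hFge
      intro h0
      rw [h0] at this
      simp at this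
    · intro x hx
      rw [frequently_atTop]
      intro N
      have h := mem_iInter.1 hx N
      simp only [hF, mem_iUnion] at h
      obtain ⟨q, hq, hx1, -⟩ := h
      rw [hVA q] at hx1
      simp only [mem_iUnion] at hx1
      obtain ⟨n, hn, hxn⟩ := hx1
      refine ⟨n, ?_, ?_⟩
      · have := hS q n hn
        have hq' : N ≤ q := hq
        omega
      · rw [mem_iUnion]
        exact ⟨q, by simpa [hn] using hxn⟩
  · have hsum : ∑' q, volume (V q ∩ Ioc (-7/16) (-6/16)) ≠ ⊤ := by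
      have hle : ∀ q, volume (V q ∩ Ioc (-7/16) (-6/16)) ≤ ENNReal.ofReal ((1/2)^q) := by
        intro q
        rw [← ENNReal.ofReal_toReal (vol_ne_top (V q) (-7/16) (-6/16))]
        exact ENNReal.ofReal_le_ofReal (hV2 q)
      apply ne_top_of_le_ne_top _ (ENNReal.tsum_le_tsum hle)
      rw [← ENNReal.ofReal_tsum_of_nonneg (fun q => by positivity) summable_geometric_two]
      exact ENNReal.ofReal_ne_top
    filter_upwards [ae_eventually_notMem hsum] with x hx hxw
    rw [eventually_atTop] at hx ⊢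
    obtain ⟨Q, hQ⟩ := hx
    set T : Finset ℕ := (Finset.range Q).biUnion S with hT
    refine ⟨T.sup id + 1, fun n hn hxn => ?_⟩
    rw [mem_iUnion] at hxn
    obtain ⟨q, hq⟩ := hxn
    by_cases hnS : n ∈ S q
    · rw [if_pos hnS] at hq
      by_cases hqQ : q < Q
      · have : n ∈ T := by
          rw [hT, Finset.mem_biUnion]
          exact ⟨q, Finset.mem_range.2 hqQ, hnS⟩
        have := Finset.le_sup (f := id) this
        simp only [id] at this
        omega
      · apply hQ q (not_lt.1 hqQ)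
        refine ⟨?_, hxw⟩
        rw [hVA q]
        simp only [mem_iUnion]
        exact ⟨n, hnS, hq⟩
    · rw [if_neg hnS] at hq
      exact hq

theorem main :
    (∃ f : ℕ → ℝ → ℝ, Admissible f ∧
      ¬ ∃ c : ℝ, ∀ᵐ x : ℝ, limsup (fun n => f n x) atTop = c) ∧
    (∃ f : ℕ → ℝ → ℝ, Admissible f ∧
      ¬ ∃ c : ℝ, ∀ᵐ x : ℝ, liminf (fun n => f n x) atTop = c) := by
  obtain ⟨A, hAm, hAp, ⟨E, hE, hEf⟩, hbad⟩ := sets_exist
  set u : ℕ → ℝ → ℝ := fun n => (A n).indicator (fun _ => (1:ℝ)) with hu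
  have hu1 : ∀ n x, u n x ≤ 1 := by
    intro n x
    simp only [hu, indicator]; split_ifs <;> norm_num
  have hu0 : ∀ n x, 0 ≤ u n x := by
    intro n x
    simp only [hu, indicator]; split_ifs <;> norm_num
  have hper : ∀ n x, u n (x + 1 / n) = u n x := by
    intro n x
    exact indicator_periodic (hAp n) x
  have hmeas : ∀ n, Measurable (u n) := fun n => measurable_const.indicator (hAm n)
  have hw : ¬ (∀ᵐ x : ℝ, x ∉ Ioc (-7/16 : ℝ) (-6/16)) := by
    intro h
    rw [ae_iff] at h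
    simp only [not_not] at h
    have e : {a : ℝ | a ∈ Ioc (-7/16 : ℝ) (-6/16)} = Ioc (-7/16 : ℝ) (-6/16) := rfl
    rw [e, Real.volume_Ioc] at h
    norm_num at h
  refine ⟨⟨u, ⟨fun n _ => hmeas n, ⟨1, fun n _ x => ?_⟩, fun n _ x => hper n x⟩, ?_⟩,
    ⟨fun n x => - u n x, ⟨fun n _ => (hmeas n).neg, ⟨1, fun n _ x => ?_⟩,
      fun n _ x => by simp only [hper n x]⟩, ?_⟩⟩
  · rw [abs_of_nonneg (hu0 n x)]; exact hu1 n x
  · rintro ⟨c, hc⟩
    have h1 : c = 1 := by
      by_contra hne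
      apply hE
      refine measure_mono_null ?_ (ae_iff.1 hc)
      intro x hx
      show ¬ (limsup (fun n => u n x) atTop = c)
      rw [limsup_one (fun n => hu1 n x) (fun n => hu0 n x)]
      · exact fun h => hne h.symm
      · refine (hEf x hx).mono (fun n hn => ?_)
        simp [hu, hn]
    apply hw
    filter_upwards [hc, hbad] with x hx hx' hxw
    have : limsup (fun n => u n x) atTop = 0 := by
      have he : (fun n => u n x) =ᶠ[atTop] fun _ => (0:ℝ) := by
        filter_upwards [hx' hxw] with n hn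
        simp [hu, hn]
      rw [limsup_congr he, limsup_const]
    rw [this, h1] at hx
    norm_num at hx
  · rw [abs_neg, abs_of_nonneg (hu0 n x)]; exact hu1 n x
  · rintro ⟨c, hc⟩
    have h1 : c = -1 := by
      by_contra hne
      apply hE
      refine measure_mono_null ?_ (ae_iff.1 hc)
      intro x hx
      show ¬ (liminf (fun n => - u n x) atTop = c)
      rw [liminf_neg_one (fun n => hu1 n x) (fun n => hu0 n x)]
      · exact fun h => hne h.symm
      · refine (hEf x hx).mono (fun n hn => ?_)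
        simp [hu, hn]
    apply hw
    filter_upwards [hc, hbad] with x hx hx' hxw
    have : liminf (fun n => - u n x) atTop = 0 := by
      have he : (fun n => - u n x) =ᶠ[atTop] fun _ => (0:ℝ) := by
        filter_upwards [hx' hxw] with n hn
        simp [hu, hn]
      rw [liminf_congr he, liminf_const]
    rw [this, h1] at hx
    norm_num at hx

end Pool.Agent.Helper7.LimsupPeriodic
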